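import Mathlib

open Finset MvPolynomial

namespace H11.QAnd

/-- `AND_n` is a real combination of `m` quadratic phase functions. -/
def Rep (n m : ℕ) : Prop :=
  ∃ (q : Fin m → MvPolynomial (Fin n) (ZMod 2)) (c : Fin m → ℝ),
    (∀ i, (q i).totalDegree ≤ 2) ∧ ∀ x : Fin n → ZMod 2,
      (if ∀ j, x j = 1 then (1 : ℝ) else 0) = ∑ i, c i * (-1) ^ (eval x (q i)).val

/-- `M(n)`. -/
noncomputable def M (n : ℕ) : ℕ := sInf {m | Rep n m}

def RepT (ι κ : Type) [Fintype ι] [Fintype κ] : Prop :=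
  ∃ (q : κ → MvPolynomial ι (ZMod 2)) (c : κ → ℝ),
    (∀ i, (q i).totalDegree ≤ 2) ∧ ∀ x : ι → ZMod 2,
      (if ∀ j, x j = 1 then (1 : ℝ) else 0) = ∑ i, c i * (-1) ^ (eval x (q i)).val

theorem chi_add (s t : ZMod 2) : (-1 : ℝ) ^ (s + t).val = (-1) ^ s.val * (-1) ^ t.val := by
  have h : ∀ u : ZMod 2, u = 0 ∨ u = 1 := by decide
  have h2 : (1 + 1 : ZMod 2) = 0 := by decide
  rcases h s with rfl | rfl <;> rcases h t with rfl | rfl <;> simp [h2, ZMod.val_one]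

theorem RepT.prod {ι κ ι' κ' : Type} [Fintype ι] [Fintype κ] [Fintype ι'] [Fintype κ']
    (h : RepT ι κ) (h' : RepT ι' κ') : RepT (ι ⊕ ι') (κ × κ') := by
  obtain ⟨q, c, hq, e⟩ := h
  obtain ⟨q', c', hq', e'⟩ := h'
  refine ⟨fun k => rename Sum.inl (q k.1) + rename Sum.inr (q' k.2), fun k => c k.1 * c' k.2,
    fun k => ?_, fun x => ?_⟩
  · exact (totalDegree_add _ _).trans (max_le ((totalDegree_rename_le _ _).trans (hq _))
      ((totalDegree_rename_le _ _).trans (hq' _)))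
  · have h1 : ∑ k : κ × κ', c k.1 * c' k.2 *
        (-1 : ℝ) ^ (eval x (rename Sum.inl (q k.1) + rename Sum.inr (q' k.2))).val =
        (∑ i, c i * (-1) ^ (eval (x ∘ Sum.inl) (q i)).val) *
          ∑ i, c' i * (-1) ^ (eval (x ∘ Sum.inr) (q' i)).val := by
      rw [sum_mul_sum, Fintype.sum_prod_type]
      refine sum_congr rfl fun i _ => sum_congr rfl fun j _ => ?_
      rw [map_add, eval_rename, eval_rename, chi_add]
      ring
    rw [h1, ← e, ← e']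
    simp only [Sum.forall, Function.comp_apply]
    by_cases a : ∀ j, x (Sum.inl j) = 1 <;> by_cases b : ∀ j, x (Sum.inr j) = 1 <;> simp [a, b]

theorem RepT.map {ι κ ι' κ' : Type} [Fintype ι] [Fintype κ] [Fintype ι'] [Fintype κ']
    (h : RepT ι κ) (f : ι → ι') (hf : Function.Surjective f) (g : κ' ≃ κ) : RepT ι' κ' := by
  obtain ⟨q, c, hq, e⟩ := h
  refine ⟨fun k => rename f (q (g k)), fun k => c (g k),
    fun k => (totalDegree_rename_le _ _).trans (hq _), fun x => ?_⟩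
  simp only [eval_rename]
  rw [Equiv.sum_comp g (fun i => c i * (-1 : ℝ) ^ (eval (x ∘ f) (q i)).val), ← e]
  have : (∀ j, x j = 1) ↔ ∀ j, (x ∘ f) j = 1 := hf.forall
  simp only [this]

def mons : Fin 7 → List (Fin 6 × Fin 6) :=
  ![[(0, 1), (2, 2), (0, 2), (1, 3), (1, 4), (3, 4), (4, 5)],
    [(0, 1), (2, 2), (0, 2), (3, 3), (1, 3), (2, 3), (1, 4), (3, 4), (3, 5), (4, 5)],
    [(1, 1), (0, 1), (0, 2), (3, 3), (2, 3), (4, 4), (1, 4), (5, 5), (1, 5), (3, 5), (4, 5)],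
    [(1, 2), (1, 3), (4, 4), (0, 4), (3, 4), (4, 5)],
    [(0, 0), (0, 1), (3, 3), (2, 3), (0, 4), (2, 4), (3, 4), (5, 5), (1, 5), (2, 5), (4, 5)],
    [(0, 0), (1, 1), (2, 2), (0, 2), (3, 3), (1, 3), (2, 3), (0, 4), (1, 4), (5, 5), (1, 5), (2, 5)],
    [(0, 1), (0, 2), (1, 2), (1, 3), (0, 4), (1, 4), (2, 4), (3, 4), (5, 5), (1, 5)]]

def cst : Fin 7 → ZMod 2 := ![1, 0, 1, 0, 1, 0, 0]

def wt : Fin 7 → ℤ := ![2, 1, 1, 1, 1, 1, 1]

def ev (x : Fin 6 → ZMod 2) (i : Fin 7) : ZMod 2 :=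
  cst i + ((mons i).map fun p => x p.1 * x p.2).sum

theorem check : ∀ a b c d e f : ZMod 2,
    (∑ i : Fin 7, wt i * (-1) ^ (ev ![a, b, c, d, e, f] i).val) =
      if a = 1 ∧ b = 1 ∧ c = 1 ∧ d = 1 ∧ e = 1 ∧ f = 1 then 8 else 0 := by
  decide +kernel

theorem deg_list (l : List (Fin 6 × Fin 6)) :
    ((l.map fun p => (X p.1 * X p.2 : MvPolynomial (Fin 6) (ZMod 2))).sum).totalDegree ≤ 2 := by
  induction l with
  | nil => simp
  | cons p l ih =>
    rw [List.map_cons, List.sum_cons]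
    refine (totalDegree_add _ _).trans (max_le ((totalDegree_mul _ _).trans ?_) ih)
    simp [totalDegree_X]

theorem base : RepT (Fin 6) (Fin 7) := by
  refine ⟨fun i => C (cst i) + ((mons i).map fun p => X p.1 * X p.2).sum,
    fun i => (wt i : ℝ) / 8, fun i => ?_, fun x => ?_⟩
  · exact (totalDegree_add _ _).trans (max_le (by simp) (deg_list _))
  · have h1 : ∀ i, eval x (C (cst i) + ((mons i).map fun p => X p.1 * X p.2).sum) = ev x i := by
      intro i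
      simp [ev, map_list_sum, Function.comp_def]
    simp only [h1]
    have h2 : x = ![x 0, x 1, x 2, x 3, x 4, x 5] := by
      funext j; fin_cases j <;> rfl
    have h3 := check (x 0) (x 1) (x 2) (x 3) (x 4) (x 5)
    rw [← h2] at h3
    have h4 : (∑ i : Fin 7, (wt i : ℝ) * (-1) ^ (ev x i).val) =
        if x 0 = 1 ∧ x 1 = 1 ∧ x 2 = 1 ∧ x 3 = 1 ∧ x 4 = 1 ∧ x 5 = 1 then 8 else 0 := by
      exact_mod_cast h3
    have h5 : (∀ j, x j = 1) ↔ x 0 = 1 ∧ x 1 = 1 ∧ x 2 = 1 ∧ x 3 = 1 ∧ x 4 = 1 ∧ x 5 = 1 := by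
      simp [Fin.forall_fin_succ]
    have h6 : ∑ i : Fin 7, (wt i : ℝ) / 8 * (-1) ^ (ev x i).val =
        (∑ i : Fin 7, (wt i : ℝ) * (-1) ^ (ev x i).val) / 8 := by
      rw [sum_div]
      exact sum_congr rfl fun i _ => by ring
    rw [h6, h4]
    simp only [h5]
    split_ifs <;> norm_num

theorem pow_rep (k : ℕ) : RepT (Fin (6 * k)) (Fin (7 ^ k)) := by
  induction k with
  | zero => exact ⟨fun _ => 0, fun _ => 1, by simp, by simp⟩
  | succ k ih =>
    exact (ih.prod base).map (finSumFinEquiv (m := 6 * k) (n := 6)) (Equiv.surjective _)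
      (Fintype.equivOfCardEq (by simp [pow_succ]))

theorem rep (n k : ℕ) (hn : 0 < n) (h : n ≤ 6 * k) : Rep n (7 ^ k) := by
  obtain ⟨q, c, hq, e⟩ := (pow_rep k).map (fun j => (⟨min j.val (n - 1), by omega⟩ : Fin n))
    (fun j => ⟨⟨j.val, by omega⟩, Fin.ext (by simp only; omega)⟩) (Equiv.refl _)
  exact ⟨q, c, hq, fun x => by convert e x⟩

end H11.QAnd

namespace Pool.Agent.Results.MP_a387ab_co.Upper

open H11.QAnd

theorem result (n : ℕ) (hn : 0 < n) :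
    Rep n (7 ^ ((n + 5) / 6)) ∧ M n ≤ 7 ^ ((n + 5) / 6) :=
  ⟨rep n _ hn (by omega), Nat.sInf_le (rep n _ hn (by omega))⟩

end Pool.Agent.Results.MP_a387ab_co.Upper
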